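import Mathlib

/-!
# Dimension shifting
-/

set_option autoImplicit false

namespace Pool.Agent.Q112.Rig

open CategoryTheory Abelian

universe u

section shift

variable {R : Type u} [Ring R]

/-- `Ext^1 = 0` iff maps extend from the kernel of a projective presentation -/
theorem ext_one_iff {S : ShortComplex (ModuleCat.{u} R)} (hS : S.ShortExact) [Projective S.X₂]
    (Y : ModuleCat.{u} R) :
    Subsingleton (Ext S.X₃ Y 1) ↔ ∀ f : S.X₁ ⟶ Y, ∃ g : S.X₂ ⟶ Y, S.f ≫ g = f := by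
  constructor
  · intro h f
    obtain ⟨x₂, hx₂⟩ := Ext.contravariant_sequence_exact₁ hS Y (Ext.mk₀ f) (add_zero 1)
      (Subsingleton.elim _ _)
    obtain ⟨g, rfl⟩ := Ext.addEquiv₀.symm.surjective x₂
    refine ⟨g, ?_⟩
    have e : Ext.addEquiv₀.symm g = Ext.mk₀ g := rfl
    rw [e, Ext.mk₀_comp_mk₀] at hx₂
    exact Ext.addEquiv₀.symm.injective hx₂
  · intro H
    refine subsingleton_of_forall_eq 0 fun x => ?_
    obtain ⟨x₁, hx₁⟩ := Ext.contravariant_sequence_exact₃ hS Y x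
      (Ext.eq_zero_of_projective _) (add_comm 1 0)
    obtain ⟨g, rfl⟩ := Ext.addEquiv₀.symm.surjective x₁
    obtain ⟨g', hg'⟩ := H g
    have e2 : Ext.addEquiv₀.symm g =
        (Ext.mk₀ S.f).comp (Ext.mk₀ g') (zero_add 0) := by
      rw [Ext.mk₀_comp_mk₀, hg']
      rfl
    rw [← hx₁, e2, ShortComplex.ShortExact.extClass_comp_assoc]

/-- dimension shifting -/
theorem ext_succ_iff {S : ShortComplex (ModuleCat.{u} R)} (hS : S.ShortExact) [Projective S.X₂]
    (Y : ModuleCat.{u} R) (i : ℕ) :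
    Subsingleton (Ext S.X₃ Y (i + 2)) ↔ Subsingleton (Ext S.X₁ Y (i + 1)) := by
  constructor
  · intro h
    refine subsingleton_of_forall_eq 0 fun x => ?_
    obtain ⟨x₂, hx₂⟩ := Ext.contravariant_sequence_exact₁ hS Y x (show 1 + (i + 1) = i + 2 by omega)
      (Subsingleton.elim _ _)
    rw [← hx₂, Ext.eq_zero_of_projective x₂, Ext.comp_zero]
  · intro h
    refine subsingleton_of_forall_eq 0 fun x => ?_
    obtain ⟨x₁, hx₁⟩ := Ext.contravariant_sequence_exact₃ hS Y x
      (Ext.eq_zero_of_projective _) (show 1 + (i + 1) = i + 2 by omega)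
    rw [← hx₁, Subsingleton.elim x₁ 0, Ext.comp_zero]

/-- invariance under isomorphism in the first variable -/
theorem ext_iso_left {X X' Y : ModuleCat.{u} R} (e : X ≅ X') (i : ℕ)
    (h : Subsingleton (Ext X Y i)) : Subsingleton (Ext X' Y i) := by
  refine subsingleton_of_forall_eq 0 fun x => ?_
  have h1 : (Ext.mk₀ e.hom).comp x (zero_add i) = 0 := Subsingleton.elim _ _
  have h2 : (Ext.mk₀ e.inv).comp ((Ext.mk₀ e.hom).comp x (zero_add i)) (zero_add i) = x := by
    rw [Ext.mk₀_comp_mk₀_assoc, e.inv_hom_id, Ext.mk₀_id_comp]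
  rw [← h2, h1, Ext.comp_zero]

/-- invariance under isomorphism in the second variable -/
theorem ext_iso_right {X Y Y' : ModuleCat.{u} R} (e : Y ≅ Y') (i : ℕ)
    (h : Subsingleton (Ext X Y i)) : Subsingleton (Ext X Y' i) := by
  refine subsingleton_of_forall_eq 0 fun x => ?_
  have h1 : x.comp (Ext.mk₀ e.inv) (add_zero i) = 0 := Subsingleton.elim _ _
  have h2 : (x.comp (Ext.mk₀ e.inv) (add_zero i)).comp (Ext.mk₀ e.hom) (add_zero i) = x := by
    rw [Ext.comp_assoc_of_second_deg_zero, Ext.mk₀_comp_mk₀, e.inv_hom_id, Ext.comp_mk₀_id]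
  rw [← h2, h1, Ext.zero_comp]

/-- retracts in the second variable -/
theorem ext_retract_right {X Y Y' : ModuleCat.{u} R} (s : Y ⟶ Y') (r : Y' ⟶ Y) (h : s ≫ r = 𝟙 Y)
    (i : ℕ) (hE : Subsingleton (Ext X Y' i)) : Subsingleton (Ext X Y i) := by
  refine subsingleton_of_forall_eq 0 fun x => ?_
  have h1 : x.comp (Ext.mk₀ s) (add_zero i) = 0 := Subsingleton.elim _ _
  have h2 : (x.comp (Ext.mk₀ s) (add_zero i)).comp (Ext.mk₀ r) (add_zero i) = x := by
    rw [Ext.comp_assoc_of_second_deg_zero, Ext.mk₀_comp_mk₀, h, Ext.comp_mk₀_id]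
  rw [← h2, h1, Ext.zero_comp]

/-- finite powers in the second variable -/
theorem ext_pi_right {X : ModuleCat.{u} R} {N : Type u} [AddCommGroup N] [Module R N] (a : ℕ)
    (ha : 1 ≤ a) (i : ℕ) :
    Subsingleton (Ext X (ModuleCat.of R (Fin a → N)) i) ↔
      Subsingleton (Ext X (ModuleCat.of R N) i) := by
  constructor
  · intro h
    refine ext_retract_right (ModuleCat.ofHom (LinearMap.single R (fun _ => N) ⟨0, ha⟩))
      (ModuleCat.ofHom (LinearMap.proj ⟨0, ha⟩)) ?_ i h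
    ext x
    simp
  · intro h
    refine subsingleton_of_forall_eq 0 fun x => ?_
    have e : (𝟙 (ModuleCat.of R (Fin a → N))) = ∑ p : Fin a,
        ModuleCat.ofHom (LinearMap.proj p) ≫ ModuleCat.ofHom (LinearMap.single R (fun _ => N) p) := by
      ext v j
      simp
    have h2 : x = x.comp (Ext.mk₀ (𝟙 (ModuleCat.of R (Fin a → N)))) (add_zero i) := by
      rw [Ext.comp_mk₀_id]
    rw [h2, e]
    have e3 : Ext.mk₀ (∑ p : Fin a, ModuleCat.ofHom (LinearMap.proj p : (Fin a → N) →ₗ[R] N) ≫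
        ModuleCat.ofHom (LinearMap.single R (fun _ => N) p)) = ∑ p : Fin a, Ext.mk₀
        (ModuleCat.ofHom (LinearMap.proj p : (Fin a → N) →ₗ[R] N) ≫
        ModuleCat.ofHom (LinearMap.single R (fun _ => N) p)) :=
      map_sum Ext.addEquiv₀.symm _ _
    rw [e3, Ext.comp_sum]
    apply Finset.sum_eq_zero
    intro p _
    rw [← Ext.mk₀_comp_mk₀, ← Ext.comp_assoc_of_second_deg_zero]
    have h1 : x.comp (Ext.mk₀ (ModuleCat.ofHom (LinearMap.proj p : (Fin a → N) →ₗ[R] N)))
      (add_zero i) = 0 := Subsingleton.elim _ _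
    rw [h1, Ext.zero_comp]

end shift

end Pool.Agent.Q112.Rig
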