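import Mathlib

/-!
# The numbers `o_k(A)`
-/

set_option autoImplicit false

namespace Pool.Agent.Q112.Rig

open CategoryTheory Abelian MulOpposite

universe u

/-- a module is indecomposable if it is nonzero and has no proper nontrivial direct summand -/
def Indec (R M : Type u) [Ring R] [AddCommGroup M] [Module R M] : Prop :=
  Nontrivial M ∧ ∀ U V : Submodule R M, IsCompl U V → U = ⊥ ∨ V = ⊥

/-- a family of pairwise nonisomorphic indecomposable finitely generated right `A`-modules with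
`Ext^i_A(M_p, M_q) = 0` for all `p`, `q` and `1 ≤ i ≤ k`, i.e. the indecomposable summands of a
`k`-rigid module of size `m` -/
structure RigidFamily (A : Type u) [Ring A] (k m : ℕ) (M : Fin m → ModuleCat.{u} Aᵐᵒᵖ) : Prop where
  fin : ∀ p, Module.Finite Aᵐᵒᵖ (M p)
  indec : ∀ p, Indec Aᵐᵒᵖ (M p)
  noniso : ∀ p q, p ≠ q → IsEmpty ((M p) ≃ₗ[Aᵐᵒᵖ] (M q))
  ext : ∀ p q i, 1 ≤ i → i ≤ k → Subsingleton (Ext (M p) (M q) i)

/-- `o_k(A)`: the supremum of the sizes of the `k`-rigid modules -/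
noncomputable def o (A : Type u) [Ring A] (k : ℕ) : ℕ∞ :=
  ⨆ (m : ℕ) (_ : ∃ M : Fin m → ModuleCat.{u} Aᵐᵒᵖ, RigidFamily A k m M), (m : ℕ∞)

end Pool.Agent.Q112.Rig
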