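import Pool.Agent.Q112.Rig.Norm
import Pool.Agent.Q112.Rig.Defs

/-!
# Rigid families over `T` and over `S`
-/

set_option autoImplicit false

namespace Pool.Agent.Q112.Rig

open CategoryTheory Abelian

universe u

variable {T S : Type u} [Ring T] [Ring S] {r : ℕ} (D : Trunc T S r)

theorem equiv_of_ind {N N' : Type u} [AddCommGroup N] [Module T N] [AddCommGroup N'] [Module T N']
    (e : IndT D N ≃ₗ[S] IndT D N') : Nonempty (N ≃ₗ[T] N') := by
  have key : ∀ {N N' : Type u} [AddCommGroup N] [Module T N] [AddCommGroup N'] [Module T N']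
      (e : IndT D N ≃ₗ[S] IndT D N') (n : N),
      pr D N (e.symm (iota D N' (pr D N' (e (iota D N n))))) = n := by
    intro N N' _ _ _ _ e n
    obtain ⟨w, hw⟩ := mem_x_of_pr D N' (e (iota D N n) - iota D N' (pr D N' (e (iota D N n)))) (by
      rw [map_sub, pr_iota, sub_self])
    have h1 : iota D N' (pr D N' (e (iota D N n))) = e (iota D N n) - D.x • w := by
      rw [← hw, sub_sub_cancel]
    rw [h1, map_sub, map_smul, e.symm_apply_apply, map_sub, pr_x, sub_zero, pr_iota]
  refine ⟨LinearEquiv.ofLinear ((pr D N').comp ((toT D e.toLinearMap).comp (iota D N)))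
    ((pr D N).comp ((toT D e.symm.toLinearMap).comp (iota D N'))) ?_ ?_⟩
  · apply LinearMap.ext
    intro n
    exact key e.symm n
  · apply LinearMap.ext
    intro n
    exact key e n

theorem ind_equiv {N N' : Type u} [AddCommGroup N] [Module T N] [AddCommGroup N'] [Module T N']
    (e : N ≃ₗ[T] N') : Nonempty (IndT D N ≃ₗ[S] IndT D N') := by
  refine ⟨LinearEquiv.ofLinear (indMap D e.toLinearMap) (indMap D e.symm.toLinearMap) ?_ ?_⟩
  · apply LinearMap.ext
    intro v
    funext p
    rw [LinearMap.comp_apply, indMap_apply, indMap_apply]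
    exact e.apply_symm_apply _
  · apply LinearMap.ext
    intro v
    funext p
    rw [LinearMap.comp_apply, indMap_apply, indMap_apply]
    exact e.symm_apply_apply _

/-- the submodule induced by a submodule -/
noncomputable def indSub {N : Type u} [AddCommGroup N] [Module T N] (U : Submodule T N) :
    Submodule S (IndT D N) :=
  toSub D (X := IndT D N)
    ({ carrier := {v | ∀ p, v p ∈ U}
       add_mem' := fun {v w} hv hw p => U.add_mem (hv p) (hw p)
       zero_mem' := fun p => U.zero_mem
       smul_mem' := fun t v hv p => U.smul_mem t (hv p) } : Submodule T (IndT D N)) (by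
      intro v hv p
      rw [x_smul_ind]
      refine Fin.cases ?_ (fun p => ?_) p
      · exact U.zero_mem
      · exact hv _)

theorem mem_indSub {N : Type u} [AddCommGroup N] [Module T N] (U : Submodule T N) (v : IndT D N) :
    v ∈ indSub D U ↔ ∀ p, v p ∈ U := Iff.rfl

theorem indec_of_ind {N : Type u} [AddCommGroup N] [Module T N] (h : Indec S (IndT D N)) :
    Indec T N := by
  obtain ⟨hn, hd⟩ := h
  refine ⟨?_, ?_⟩
  · by_contra hN
    rw [not_nontrivial_iff_subsingleton] at hN
    obtain ⟨x, y, hxy⟩ := hn
    exact hxy (funext fun p => Subsingleton.elim _ _)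
  · intro U V hUV
    have h1 : IsCompl (indSub D U) (indSub D V) := by
      constructor
      · rw [Submodule.disjoint_def]
        intro v hu hv
        funext p
        exact (Submodule.disjoint_def.1 hUV.disjoint) _ (hu p) (hv p)
      · rw [codisjoint_iff, eq_top_iff]
        rintro v -
        have h2 : ∀ p, ∃ y ∈ U, ∃ z ∈ V, y + z = v p := by
          intro p
          have : v p ∈ U ⊔ V := by
            rw [hUV.sup_eq_top]
            trivial
          exact Submodule.mem_sup.1 this
        choose y hy z hz hyz using h2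
        rw [Submodule.mem_sup]
        exact ⟨(y : IndT D N), hy, (z : IndT D N), hz, funext hyz⟩
    have h3 : ∀ W : Submodule T N, indSub D W = ⊥ → W = ⊥ := by
      intro W hW
      rw [Submodule.eq_bot_iff]
      intro x hx
      have h5 : ∀ v : IndT D N, v ∈ indSub D W → v = 0 := fun v hv => by
        rw [hW] at hv
        exact (Submodule.mem_bot S).1 hv
      exact congrFun (h5 (fun _ => x) fun _ => hx) 0
    exact (hd _ _ h1).imp (h3 U) (h3 V)

theorem eq_bot_of_x (W : Type u) [AddCommGroup W] [Module S W] (U : Submodule S W)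
    (h : ∀ u ∈ U, ∃ u' ∈ U, u = D.x • u') : U = ⊥ := by
  rw [Submodule.eq_bot_iff]
  have key : ∀ k : ℕ, ∀ u ∈ U, ∃ u' ∈ U, u = D.x ^ k • u' := by
    intro k
    induction k with
    | zero => intro u hu; exact ⟨u, hu, by simp⟩
    | succ k ih =>
      intro u hu
      obtain ⟨u', hu', e⟩ := ih u hu
      obtain ⟨u'', hu'', e'⟩ := h u' hu'
      exact ⟨u'', hu'', by rw [e, e', pow_succ, mul_smul]⟩
  intro u hu
  obtain ⟨u', _, e⟩ := key (r + 1) u hu
  rw [e, D.pow, zero_smul]

theorem ind_of_indec {N : Type u} [AddCommGroup N] [Module T N] (h : Indec T N) :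
    Indec S (IndT D N) := by
  obtain ⟨hn, hd⟩ := h
  refine ⟨?_, ?_⟩
  · obtain ⟨x, y, hxy⟩ := hn
    refine ⟨iota D N x, iota D N y, fun e => hxy ?_⟩
    rw [← pr_iota D N x, e, pr_iota]
  · intro U V hUV
    -- the images in degree zero
    let im : Submodule S (IndT D N) → Submodule T N := fun W =>
      { carrier := {n | ∃ w ∈ W, pr D N w = n}
        add_mem' := by
          rintro _ _ ⟨w, hw, rfl⟩ ⟨w', hw', rfl⟩
          exact ⟨w + w', W.add_mem hw hw', map_add _ _ _⟩
        zero_mem' := ⟨0, W.zero_mem, map_zero _⟩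
        smul_mem' := by
          rintro t _ ⟨w, hw, rfl⟩
          refine ⟨t • w, ?_, map_smul _ _ _⟩
          rw [← Cmp.smul (D := D) t w]
          exact W.smul_mem _ hw }
    have hdec : ∀ v : IndT D N, ∃ y ∈ U, ∃ z ∈ V, y + z = v := by
      intro v
      have : v ∈ U ⊔ V := by
        rw [hUV.sup_eq_top]
        trivial
      exact Submodule.mem_sup.1 this
    have hdis := Submodule.disjoint_def.1 hUV.disjoint
    have h1 : IsCompl (im U) (im V) := by
      constructor
      · rw [Submodule.disjoint_def]
        rintro n ⟨u, hu, rfl⟩ ⟨v, hv, hvu⟩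
        obtain ⟨w, hw⟩ := mem_x_of_pr D N (u - v) (by rw [map_sub, hvu, sub_self])
        obtain ⟨y, hy, z, hz, rfl⟩ := hdec w
        have h2 : u - D.x • y = v + D.x • z := by
          rw [smul_add] at hw
          rw [sub_eq_iff_eq_add, sub_eq_iff_eq_add.1 hw]
          abel
        have h3 : u - D.x • y = 0 := hdis _ (U.sub_mem hu (U.smul_mem _ hy)) (by
          rw [h2]
          exact V.add_mem hv (V.smul_mem _ hz))
        rw [sub_eq_zero] at h3
        rw [h3, pr_x]
      · rw [codisjoint_iff, eq_top_iff]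
        rintro n -
        obtain ⟨y, hy, z, hz, hyz⟩ := hdec (iota D N n)
        rw [Submodule.mem_sup]
        refine ⟨_, ⟨y, hy, rfl⟩, _, ⟨z, hz, rfl⟩, ?_⟩
        rw [← map_add, hyz, pr_iota]
    have h4 : ∀ U V : Submodule S (IndT D N), (∀ v : IndT D N, ∃ y ∈ U, ∃ z ∈ V, y + z = v) →
        (∀ x ∈ U, x ∈ V → x = 0) → (∀ u ∈ U, pr D N u = 0) → U = ⊥ := by
      intro U V hdec hdis hU
      apply eq_bot_of_x D
      intro u hu
      obtain ⟨w, hw⟩ := mem_x_of_pr D N u (hU u hu)
      obtain ⟨y, hy, z, hz, rfl⟩ := hdec w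
      refine ⟨y, hy, ?_⟩
      rw [smul_add] at hw
      rw [← sub_eq_zero]
      apply hdis _ (U.sub_mem hu (U.smul_mem _ hy))
      have : u - D.x • y = D.x • z := by
        rw [hw]
        abel
      rw [this]
      exact V.smul_mem _ hz
    rcases hd _ _ h1 with h | h
    · left
      refine h4 U V hdec hdis fun u hu => ?_
      have : pr D N u ∈ im U := ⟨u, hu, rfl⟩
      rw [h] at this
      exact this
    · right
      refine h4 V U ?_ (fun x hx hx' => hdis x hx' hx) fun u hu => ?_
      · intro v
        obtain ⟨y, hy, z, hz, e⟩ := hdec v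
        exact ⟨z, hz, y, hy, by rw [add_comm]; exact e⟩
      · have : pr D N u ∈ im V := ⟨u, hu, rfl⟩
        rw [h] at this
        exact this

theorem ind_finite {N : Type u} [AddCommGroup N] [Module T N] (h : Module.Finite T N) :
    Module.Finite S (IndT D N) := by
  obtain ⟨s, hs⟩ := h.fg_top
  classical
  refine ⟨⟨s.image (iota D N), ?_⟩⟩
  rw [eq_top_iff]
  rintro v -
  rw [ind_eq_sum D N v]
  apply Submodule.sum_mem
  intro p _
  apply Submodule.smul_mem
  have hn : v p ∈ Submodule.span T (s : Set N) := by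
    rw [hs]
    trivial
  refine Submodule.span_induction (p := fun n _ => iota D N n ∈ _) ?_ ?_ ?_ ?_ hn
  · intro n hn
    apply Submodule.subset_span
    simp only [Finset.coe_image, Set.mem_image]
    exact ⟨n, hn, rfl⟩
  · rw [map_zero]
    exact Submodule.zero_mem _
  · intro x y _ _ hx hy
    rw [map_add]
    exact Submodule.add_mem _ hx hy
  · intro t x _ hx
    rw [map_smul, ← Cmp.smul (D := D)]
    exact Submodule.smul_mem _ _ hx

theorem finite_of_ind {N : Type u} [AddCommGroup N] [Module T N]
    (h : Module.Finite S (IndT D N)) : Module.Finite T N := by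
  obtain ⟨s, hs⟩ := h.fg_top
  classical
  refine ⟨⟨s.image (pr D N), ?_⟩⟩
  rw [eq_top_iff]
  rintro n -
  have hv : iota D N n ∈ Submodule.span S (s : Set (IndT D N)) := by
    rw [hs]
    trivial
  have : pr D N (iota D N n) ∈ Submodule.span T ((s.image (pr D N) : Finset N) : Set N) := by
    refine Submodule.span_induction (p := fun v _ => pr D N v ∈ _) ?_ ?_ ?_ ?_ hv
    · intro v hv
      apply Submodule.subset_span
      simp only [Finset.coe_image, Set.mem_image]
      exact ⟨v, hv, rfl⟩
    · rw [map_zero]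
      exact Submodule.zero_mem _
    · intro x y _ _ hx hy
      rw [map_add]
      exact Submodule.add_mem _ hx hy
    · intro c x _ hx
      obtain ⟨t, ht⟩ := pr_smul D N c
      rw [ht]
      exact Submodule.smul_mem _ _ hx
  rwa [pr_iota] at this

/-- Ext between induced modules -/
theorem ext_ind_ind (N N' : Type u) [AddCommGroup N] [Module T N] [AddCommGroup N'] [Module T N']
    (i : ℕ) : Subsingleton (Ext (ModuleCat.of S (IndT D N)) (ModuleCat.of S (IndT D N')) (i + 1)) ↔
      Subsingleton (Ext (ModuleCat.of T N) (ModuleCat.of T N') (i + 1)) :=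
  (ext_ind D i N (IndT D N')).trans (ext_pi_right (X := ModuleCat.of T N) (N := N') (r + 1)
    (by omega) (i + 1))

end Pool.Agent.Q112.Rig
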