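import Pool.Agent.Q112.Rig.Fam

/-!
# Equality of the numbers `o_k`
-/

set_option autoImplicit false

namespace Pool.Agent.Q112.Rig

open CategoryTheory Abelian MulOpposite

universe u

theorem indec_equiv {R M N : Type u} [Ring R] [AddCommGroup M] [Module R M] [AddCommGroup N]
    [Module R N] (e : M ≃ₗ[R] N) (h : Indec R M) : Indec R N := by
  obtain ⟨hn, hd⟩ := h
  refine ⟨e.symm.toEquiv.nontrivial, ?_⟩
  intro U V hUV
  have h1 : IsCompl (U.map e.symm.toLinearMap) (V.map e.symm.toLinearMap) :=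
    hUV.map (Submodule.orderIsoMapComap e.symm)
  have h2 : ∀ W : Submodule R N, W.map e.symm.toLinearMap = ⊥ → W = ⊥ := by
    intro W hW
    rw [Submodule.eq_bot_iff]
    intro x hx
    apply e.symm.injective
    rw [map_zero]
    exact (Submodule.eq_bot_iff _).1 hW _ ⟨x, hx, rfl⟩
  exact (hd _ _ h1).imp (h2 U) (h2 V)

theorem family_iff (K : Type u) [Field K] {B A : Type u} [Ring B] [Algebra K B]
    [Ring A] [Algebra K A] [Module.Finite K A] {r : ℕ} (D : Trunc Bᵐᵒᵖ Aᵐᵒᵖ r)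
    (hD : ∀ c : K, D.f (algebraMap K Bᵐᵒᵖ c) = algebraMap K Aᵐᵒᵖ c) (k : ℕ) (hk : 1 ≤ k) (m : ℕ) :
    (∃ M : Fin m → ModuleCat.{u} Aᵐᵒᵖ, RigidFamily A k m M) ↔
      ∃ N : Fin m → ModuleCat.{u} Bᵐᵒᵖ, RigidFamily B k m N := by
  have hfin : Module.Finite K Aᵐᵒᵖ := Module.Finite.equiv (MulOpposite.opLinearEquiv K)
  constructor
  · rintro ⟨M, hM⟩
    have key : ∀ p, ∃ (N : ModuleCat.{u} Bᵐᵒᵖ), Nonempty (IndT D N ≃ₗ[Aᵐᵒᵖ] M p) := by
      intro p
      let _ : Module K (M p) := Module.compHom (M p) (algebraMap K Aᵐᵒᵖ)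
      have _ : IsScalarTower K Aᵐᵒᵖ (M p) := ⟨fun c x v => by
        change (c • x) • v = algebraMap K Aᵐᵒᵖ c • x • v
        rw [Algebra.smul_def, mul_smul]⟩
      let _ : Module Bᵐᵒᵖ (M p) := Module.compHom (M p) D.f
      have _ : Cmp D (M p) := ⟨fun _ _ => rfl⟩
      have _ : IsScalarTower K Bᵐᵒᵖ (M p) := ⟨fun c t v => by
        change D.f (c • t) • v = algebraMap K Aᵐᵒᵖ c • D.f t • v
        rw [Algebra.smul_def, map_mul, hD, mul_smul]⟩
      have _ := hM.fin p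
      have _ : FiniteDimensional K (M p) := Module.Finite.trans Aᵐᵒᵖ (M p)
      exact exists_ind D K (M := M p) (hM.ext p p 1 le_rfl hk)
    choose N e using key
    have e' := fun p => (e p).some
    refine ⟨N, ?_, ?_, ?_, ?_⟩
    · intro p
      have _ := hM.fin p
      exact finite_of_ind D (Module.Finite.equiv (e' p).symm)
    · intro p
      exact indec_of_ind D (indec_equiv (e' p).symm (hM.indec p))
    · intro p q hpq
      refine ⟨fun f => ?_⟩
      obtain ⟨g⟩ := ind_equiv D f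
      exact (hM.noniso p q hpq).false ((e' p).symm.trans (g.trans (e' q)))
    · intro p q i hi hik
      obtain ⟨j, rfl⟩ : ∃ j, i = j + 1 := ⟨i - 1, by omega⟩
      refine (ext_ind_ind D (N p) (N q) j).1 ?_
      refine ext_iso_left (X := M p) (LinearEquiv.toModuleIso (e' p).symm) _ ?_
      exact ext_iso_right (Y := M q) (LinearEquiv.toModuleIso (e' q).symm) _
        (hM.ext p q (j + 1) hi hik)
  · rintro ⟨N, hN⟩
    refine ⟨fun p => ModuleCat.of Aᵐᵒᵖ (IndT D (N p)), ?_, ?_, ?_, ?_⟩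
    · intro p
      exact ind_finite D (hN.fin p)
    · intro p
      exact ind_of_indec D (hN.indec p)
    · intro p q hpq
      refine ⟨fun f => ?_⟩
      obtain ⟨g⟩ := equiv_of_ind D f
      exact (hN.noniso p q hpq).false g
    · intro p q i hi hik
      obtain ⟨j, rfl⟩ : ∃ j, i = j + 1 := ⟨i - 1, by omega⟩
      exact (ext_ind_ind D (N p) (N q) j).2 (hN.ext p q (j + 1) hi hik)

theorem o_eq (K : Type u) [Field K] {B A : Type u} [Ring B] [Algebra K B]
    [Ring A] [Algebra K A] [Module.Finite K A] {r : ℕ} (D : Trunc Bᵐᵒᵖ Aᵐᵒᵖ r)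
    (hD : ∀ c : K, D.f (algebraMap K Bᵐᵒᵖ c) = algebraMap K Aᵐᵒᵖ c) (k : ℕ) (hk : 1 ≤ k) :
    o A k = o B k := by
  unfold o
  congr 1
  funext m
  rw [family_iff K D hD k hk m]

end Pool.Agent.Q112.Rig
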