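import Pool.Agent.Q112.Rig.Shift
import Pool.Agent.Q112.QCI.Surj
import Pool.Agent.Q112.QCI.Final

/-!
# Rigid `S`-modules are induced
-/

set_option autoImplicit false

namespace Pool.Agent.Q112.Rig

open CategoryTheory Abelian Pool.Agent.Q112.QCI

universe u

variable {T S : Type u} [Ring T] [Ring S] {r : ℕ} (D : Trunc T S r)

/-- the action of `x` -/
def xop (M : Type u) [AddCommGroup M] [Module T M] [Module S M] [Cmp D M] : Module.End T M where
  toFun v := D.x • v
  map_add' v w := smul_add _ _ _
  map_smul' t v := x_smul_comm D t v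

theorem xop_apply {M : Type u} [AddCommGroup M] [Module T M] [Module S M] [Cmp D M] (v : M) :
    xop D M v = D.x • v := rfl

theorem xop_pow {M : Type u} [AddCommGroup M] [Module T M] [Module S M] [Cmp D M] (p : ℕ) (v : M) :
    (xop D M ^ p) v = D.x ^ p • v := by
  induction p with
  | zero => simp
  | succ p ih => rw [pow_succ', Module.End.mul_apply, ih, xop_apply, pow_succ', mul_smul]

theorem xop_nil (M : Type u) [AddCommGroup M] [Module T M] [Module S M] [Cmp D M] :
    xop D M ^ (r + 1) = 0 := by
  apply LinearMap.ext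
  intro v
  rw [xop_pow, D.pow, zero_smul]
  rfl

/-- the underlying module of a self-extension -/
def Db (M : Type u) : Type u := M × M

instance (M : Type u) [AddCommGroup M] : AddCommGroup (Db M) := inferInstanceAs (AddCommGroup (M × M))
instance (T M : Type u) [Ring T] [AddCommGroup M] [Module T M] : Module T (Db M) :=
  inferInstanceAs (Module T (M × M))

/-- the deformed operator -/
def dp {M : Type u} [AddCommGroup M] [Module T M] (X φ : Module.End T M) :
    Module.End T (Db M) where
  toFun v := ((X v.1 + φ v.2, X v.2) : M × M)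
  map_add' v w := by
    change ((X (v.1 + w.1) + φ (v.2 + w.2), X (v.2 + w.2)) : M × M) =
      ((X v.1 + φ v.2 + (X w.1 + φ w.2), X v.2 + X w.2) : M × M)
    rw [map_add, map_add, map_add]
    congr 1
    abel
  map_smul' k v := by
    change ((X (k • v.1) + φ (k • v.2), X (k • v.2)) : M × M) =
      ((k • (X v.1 + φ v.2), k • X v.2) : M × M)
    rw [map_smul, map_smul, map_smul, smul_add]

theorem dp_pow {M : Type u} [AddCommGroup M] [Module T M] (X φ : Module.End T M) (p : ℕ)
    (v : Db M) :
    (dp X φ ^ p) v = (((X ^ p) v.1 + (nrm p X φ) v.2, (X ^ p) v.2) : M × M) := by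
  induction p generalizing v with
  | zero =>
    rw [pow_zero, pow_zero]
    have e : nrm 0 X φ = 0 := by simp [nrm]
    rw [e]
    exact Prod.ext (add_zero _).symm rfl
  | succ p ih =>
    rw [pow_succ, Module.End.mul_apply]
    rw [ih]
    change (((X ^ p) (X v.1 + φ v.2) + (nrm p X φ) (X v.2), (X ^ p) (X v.2)) : M × M) = _
    have e : nrm (p + 1) X φ = nrm p X φ * X + X ^ p * φ := by
      unfold nrm
      rw [Finset.sum_range_succ, Finset.sum_mul]
      congr 1
      · apply Finset.sum_congr rfl
        intro r hr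
        rw [Finset.mem_range] at hr
        rw [show p + 1 - 1 - r = (p - 1 - r) + 1 by omega, pow_succ, mul_assoc, mul_assoc, mul_assoc]
      · simp
    rw [e]
    simp only [pow_succ, Module.End.mul_apply, LinearMap.add_apply, map_add]
    congr 1
    abel

/-- deformations of the action of `x` are trivial -/
theorem def_trivial {M : Type u} [AddCommGroup M] [Module T M] [Module S M] [Cmp D M]
    (hE : Subsingleton (Ext (ModuleCat.of S M) (ModuleCat.of S M) 1)) (φ : Module.End T M)
    (hφ : nrm (r + 1) (xop D M) φ = 0) :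
    ∃ h : Module.End T M, φ = h * xop D M - xop D M * h := by
  have hY : dp (xop D M) φ ^ (r + 1) = 0 := by
    apply LinearMap.ext
    intro v
    rw [dp_pow, hφ, xop_nil]
    exact Prod.ext (add_zero _) rfl
  obtain ⟨ρ, hρ1, hρ2⟩ := D.ext (Db M) (dp (xop D M) φ) hY
  letI : Module S (Db M) := Module.compHom (Db M) ρ
  have _ : Cmp D (Db M) := ⟨hρ1⟩
  have hx : ∀ v : Db M, D.x • v = dp (xop D M) φ v := hρ2
  let f : M →ₗ[S] Db M := toLin D
    ({ toFun := fun m => ((m, 0) : M × M)
       map_add' := fun x y => by
        change ((x + y, 0) : M × M) = ((x + y, 0 + 0) : M × M)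
        rw [add_zero]
       map_smul' := fun k x => by
        change ((k • x, 0) : M × M) = ((k • x, k • 0) : M × M)
        rw [smul_zero] } : M →ₗ[T] Db M) (by
      intro m
      rw [hx]
      change ((D.x • m, 0) : M × M) = ((D.x • m + φ 0, D.x • (0 : M)) : M × M)
      rw [map_zero, add_zero, smul_zero])
  let g : Db M →ₗ[S] M := toLin D
    ({ toFun := fun v => v.2
       map_add' := fun x y => rfl
       map_smul' := fun k x => rfl } : Db M →ₗ[T] M) (by
      intro v
      rw [hx]
      rfl)
  have hf' : ∀ m, f m = ((m, 0) : M × M) := fun _ => rfl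
  have hg' : ∀ v : Db M, g v = v.2 := fun _ => rfl
  obtain ⟨t, ht⟩ := split_of_ext f g (by
    intro x y hxy
    rw [hf', hf'] at hxy
    exact congrArg Prod.fst hxy) (by
    intro m
    exact ⟨((0, m) : M × M), hg' _⟩) (by
    intro v
    constructor
    · intro hv
      rw [hg'] at hv
      refine ⟨v.1, ?_⟩
      rw [hf']
      exact Prod.ext rfl hv.symm
    · rintro ⟨m, rfl⟩
      rw [hg', hf']) hE
  let t' := toT D t
  let h : Module.End T M :=
    { toFun := fun m => (t' m).1
      map_add' := fun x y => by rw [map_add]; rfl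
      map_smul' := fun k x => by
        rw [map_smul]
        rfl }
  refine ⟨h, ?_⟩
  apply LinearMap.ext
  intro m
  have e2 : (t m).2 = m := by
    have := LinearMap.congr_fun ht m
    rw [LinearMap.comp_apply, hg'] at this
    exact this
  have e1 : t (D.x • m) = dp (xop D M) φ (t m) := by
    rw [map_smul, hx]
  have e3 : (t (D.x • m)).1 = D.x • (t m).1 + φ (t m).2 := by
    rw [e1]; rfl
  rw [e2] at e3
  change φ m = (t (D.x • m)).1 - D.x • (t m).1
  rw [e3]
  abel

/-- the trace identity -/
theorem exists_trace (K : Type u) [Field K] [Algebra K T] {M : Type u} [AddCommGroup M]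
    [Module K M] [Module T M] [IsScalarTower K T M] [Module S M] [Cmp D M] [FiniteDimensional K M]
    (hE : Subsingleton (Ext (ModuleCat.of S M) (ModuleCat.of S M) 1)) :
    ∃ g : Module.End T M, nrm (r + 1) (xop D M) g = 1 := by
  have hfin : FiniteDimensional K (Module.End T M) :=
    FiniteDimensional.of_injective (LinearMap.restrictScalarsₗ K T M M K)
      (LinearMap.restrictScalars_injective K)
  obtain ⟨g, _, hg⟩ := surj (L := K) (E := Module.End T M) (n := 1) (a := fun _ => r + 1)
    (c := fun _ _ => 1) (X := fun _ => xop D M)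
    ⟨fun _ => xop_nil D M, fun i j h => absurd (Subsingleton.elim i j) h⟩
    (by
      intro φ h1 _
      obtain ⟨h, hh⟩ := def_trivial D hE (φ 0) (h1 0)
      refine ⟨h, fun i => ?_⟩
      rw [Subsingleton.elim i 0]
      exact hh)
    (fun i j h => absurd (Subsingleton.elim i j) h) 0 (by simp) 1
    (fun j h => absurd (Subsingleton.elim j 0) h) (by simp)
  exact ⟨g, hg⟩

/-- **rigid modules are induced** -/
theorem exists_ind (K : Type u) [Field K] [Algebra K T] {M : Type u} [AddCommGroup M]
    [Module K M] [Module T M] [IsScalarTower K T M] [Module S M] [Cmp D M] [FiniteDimensional K M]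
    (hE : Subsingleton (Ext (ModuleCat.of S M) (ModuleCat.of S M) 1)) :
    ∃ (N : ModuleCat.{u} T), Nonempty (IndT D N ≃ₗ[S] M) := by
  obtain ⟨g, hg⟩ := exists_trace D K hE
  let X := xop D M
  have hX : X ^ (r + 1) = 0 := xop_nil D M
  let N := M ⧸ LinearMap.range X
  let π : M →ₗ[T] N := (LinearMap.range X).mkQ
  have hπ : ∀ m, π (X m) = 0 := fun m => by
    change (LinearMap.range X).mkQ (X m) = 0
    rw [Submodule.mkQ_apply, Submodule.Quotient.mk_eq_zero]
    exact ⟨m, rfl⟩
  have hπ2 : ∀ m, π m = 0 → ∃ m', X m' = m := fun m hm => by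
    change (LinearMap.range X).mkQ m = 0 at hm
    rw [Submodule.mkQ_apply, Submodule.Quotient.mk_eq_zero] at hm
    exact hm
  let σ : N →ₗ[T] M := (LinearMap.range X).liftQ (g * X ^ r) (by
    rintro _ ⟨m, rfl⟩
    rw [LinearMap.mem_ker, Module.End.mul_apply, ← Module.End.mul_apply (X ^ r) X m, ← pow_succ, hX]
    simp)
  have hσ : ∀ m, σ (π m) = g ((X ^ r) m) := fun m => by
    change (LinearMap.range X).liftQ _ _ ((LinearMap.range X).mkQ m) = _
    rw [Submodule.mkQ_apply, Submodule.liftQ_apply]
    rfl
  have hone : ∀ m, ∃ m', m = g ((X ^ r) m) + X m' := by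
    intro m
    have h := LinearMap.congr_fun hg m
    unfold nrm at h
    rw [Finset.sum_range_succ'] at h
    refine ⟨∑ k ∈ Finset.range r, ((X ^ k * g * X ^ (r + 1 - 1 - (k + 1))) m), ?_⟩
    rw [map_sum]
    have e : ∀ k, X ((X ^ k * g * X ^ (r + 1 - 1 - (k + 1))) m) =
        (X ^ (k + 1) * g * X ^ (r + 1 - 1 - (k + 1))) m := by
      intro k
      rw [pow_succ' X k]
      rfl
    simp only [e]
    rw [Module.End.one_apply] at h
    conv_lhs => rw [← h]
    rw [LinearMap.add_apply, LinearMap.sum_apply, add_comm]
    congr 1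
  have hsec : ∀ n, π (σ n) = n := by
    intro n
    obtain ⟨m, rfl⟩ := (LinearMap.range X).mkQ_surjective n
    change π (σ (π m)) = π m
    rw [hσ]
    obtain ⟨m', hm'⟩ := hone m
    have : π m = π (g ((X ^ r) m) + X m') := congrArg π hm'
    rw [map_add, hπ, add_zero] at this
    exact this.symm
  have hsoc : ∀ m, (X ^ r) m = 0 → π m = 0 := by
    intro m hm
    obtain ⟨m', hm'⟩ := hone m
    rw [hm, map_zero, zero_add] at hm'
    rw [hm', hπ]
  let Φ : IndT D N →ₗ[S] M := indHom D σ
  refine ⟨ModuleCat.of T N, ⟨LinearEquiv.ofBijective Φ ⟨?_, ?_⟩⟩⟩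
  · -- injectivity
    rw [← LinearMap.ker_eq_bot, LinearMap.ker_eq_bot']
    intro v hv
    have hv' : ∑ p : Fin (r + 1), (X ^ (p : ℕ)) (σ (v p)) = 0 := by
      rw [← hv]
      apply Finset.sum_congr rfl
      intro p _
      exact xop_pow D _ _
    have key : ∀ k : ℕ, ∀ p : Fin (r + 1), p.1 < k → v p = 0 := by
      intro k
      induction k with
      | zero => intro p hp; omega
      | succ k ih =>
        intro p hp
        by_cases hpk : p.1 < k
        · exact ih p hpk
        · have hpk' : p.1 = k := by omega
          have h1 := congrArg (X ^ (r - k)) hv'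
          rw [map_sum, map_zero, Finset.sum_eq_single p] at h1
          · rw [← Module.End.mul_apply, ← pow_add, show r - k + p.1 = r by omega] at h1
            have h2 := hsoc _ h1
            rw [hsec] at h2
            exact h2
          · intro q _ hq
            rcases lt_or_gt_of_ne (fun e => hq (Fin.ext e) : q.1 ≠ p.1) with h | h
            · rw [ih q (by omega), map_zero, map_zero, map_zero]
            · rw [← Module.End.mul_apply, ← pow_add, show r - k + q.1 = (r - k + q.1 - (r + 1)) +
                (r + 1) by omega, pow_add, hX, mul_zero]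
              rfl
          · intro h
            exact absurd (Finset.mem_univ p) h
    funext p
    exact key (r + 1) p p.2
  · -- surjectivity
    have key : ∀ k : ℕ, ∀ m : M, ∃ v : IndT D N, ∃ m' : M, m = Φ v + (X ^ k) m' := by
      intro k
      induction k with
      | zero => intro m; exact ⟨0, m, by simp⟩
      | succ k ih =>
        intro m
        obtain ⟨v, m', hm⟩ := ih m
        obtain ⟨m'', hm'⟩ := hπ2 (m' - σ (π m')) (by rw [map_sub, hsec, sub_self])
        refine ⟨v + D.x ^ k • iota D N (π m'), m'', ?_⟩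
        rw [map_add, map_smul, indHom_iota, pow_succ, Module.End.mul_apply, hm', map_sub,
          ← xop_pow]
        conv_lhs => rw [hm]
        change Φ v + (X ^ k) m' = Φ v + (X ^ k) (σ (π m')) + ((X ^ k) m' - (X ^ k) (σ (π m')))
        abel
    intro m
    obtain ⟨v, m', hm⟩ := key (r + 1) m
    refine ⟨v, ?_⟩
    rw [hX, LinearMap.zero_apply, add_zero] at hm
    exact hm.symm

end Pool.Agent.Q112.Rig
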