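import Pool.Agent.Q112.Rig.Trunc

/-!
# `Ext_S^i(Ind N, X) = 0` iff `Ext_T^i(N, X) = 0`
-/

set_option autoImplicit false

namespace Pool.Agent.Q112.Rig

open CategoryTheory Abelian

universe u

variable {T S : Type u} [Ring T] [Ring S] {r : ℕ}

/-- the short complex of a surjection -/
def presC {R P N : Type u} [Ring R] [AddCommGroup P] [Module R P] [AddCommGroup N] [Module R N]
    (π : P →ₗ[R] N) : ShortComplex (ModuleCat.{u} R) :=
  ShortComplex.mk (ModuleCat.ofHom (LinearMap.ker π).subtype) (ModuleCat.ofHom π) (by
    ext x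
    exact x.2)

theorem presC_exact {R P N : Type u} [Ring R] [AddCommGroup P] [Module R P] [AddCommGroup N]
    [Module R N] (π : P →ₗ[R] N) (hπ : Function.Surjective π) : (presC π).ShortExact where
  exact := by
    rw [ShortComplex.moduleCat_exact_iff]
    intro x hx
    exact ⟨⟨x, hx⟩, rfl⟩
  mono_f := by
    rw [ModuleCat.mono_iff_injective]
    exact Subtype.val_injective
  epi_g := by
    rw [ModuleCat.epi_iff_surjective]
    exact hπ

/-- the induced complex -/
noncomputable def indC (D : Trunc T S r) {P N : Type u} [AddCommGroup P] [Module T P]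
    [AddCommGroup N] [Module T N] (π : P →ₗ[T] N) : ShortComplex (ModuleCat.{u} S) :=
  ShortComplex.mk (ModuleCat.ofHom (indMap D (LinearMap.ker π).subtype))
    (ModuleCat.ofHom (indMap D π)) (by
    ext v
    funext p
    change indMap D π (indMap D (LinearMap.ker π).subtype v) p = 0
    rw [indMap_apply, indMap_apply]
    exact (v p).2)

theorem indC_exact (D : Trunc T S r) {P N : Type u} [AddCommGroup P] [Module T P]
    [AddCommGroup N] [Module T N] (π : P →ₗ[T] N) (hπ : Function.Surjective π) :
    (indC D π).ShortExact where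
  exact := by
    rw [ShortComplex.moduleCat_exact_iff]
    intro x hx
    have hx' : ∀ p, π (x p) = 0 := by
      intro p
      rw [← indMap_apply D π x p]
      exact congrFun hx p
    refine ⟨(fun p => ⟨x p, hx' p⟩ : IndT D (LinearMap.ker π)), ?_⟩
    funext p
    exact indMap_apply D _ _ p
  mono_f := by
    rw [ModuleCat.mono_iff_injective]
    intro v w hvw
    funext p
    apply Subtype.ext
    have := congrFun hvw p
    exact ((indMap_apply D (LinearMap.ker π).subtype v p).symm.trans this).trans
      (indMap_apply D (LinearMap.ker π).subtype w p)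
  epi_g := by
    rw [ModuleCat.epi_iff_surjective]
    intro w
    choose v hv using fun p => hπ (w p)
    refine ⟨(v : IndT D P), ?_⟩
    funext p
    exact (indMap_apply D π (v : IndT D P) p).trans (hv p)

theorem extend_iff (D : Trunc T S r) {P N X : Type u} [AddCommGroup P] [Module T P]
    [AddCommGroup N] [Module T N] [AddCommGroup X] [Module T X] [Module S X] [Cmp D X]
    (j : N →ₗ[T] P) :
    (∀ F : IndT D N →ₗ[S] X, ∃ G : IndT D P →ₗ[S] X, G.comp (indMap D j) = F) ↔
      ∀ f : N →ₗ[T] X, ∃ g : P →ₗ[T] X, g.comp j = f := by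
  constructor
  · intro h f
    obtain ⟨G, hG⟩ := h (indHom D f)
    refine ⟨(toT D G).comp (iota D P), ?_⟩
    apply LinearMap.ext
    intro n
    change G (iota D P (j n)) = f n
    rw [← indMap_iota, ← indHom_iota D f n, ← hG]
    rfl
  · intro h F
    obtain ⟨g, hg⟩ := h ((toT D F).comp (iota D N))
    refine ⟨indHom D g, ?_⟩
    apply ind_hom_ext
    intro n
    rw [LinearMap.comp_apply, indMap_iota, indHom_iota]
    exact LinearMap.congr_fun hg n

theorem ext_ind (D : Trunc T S r) (i : ℕ) : ∀ (N X : Type u) [AddCommGroup N] [Module T N]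
    [AddCommGroup X] [Module T X] [Module S X] [Cmp D X],
    Subsingleton (Ext (ModuleCat.of S (IndT D N)) (ModuleCat.of S X) (i + 1)) ↔
      Subsingleton (Ext (ModuleCat.of T N) (ModuleCat.of T X) (i + 1)) := by
  induction i with
  | zero =>
    intro N X _ _ _ _ _ _
    let π : (N →₀ T) →ₗ[T] N := Finsupp.linearCombination T id
    have hπ : Function.Surjective π := Finsupp.linearCombination_id_surjective T N
    have _ : Projective (presC π).X₂ :=
      (IsProjective.iff_projective (R := T) (N →₀ T)).1 inferInstance
    have _ : Projective (indC D π).X₂ :=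
      (IsProjective.iff_projective (R := S) (IndT D (N →₀ T))).1 (ind_projective D _)
    have e1 := ext_one_iff (presC_exact π hπ) (ModuleCat.of T X)
    have e2 := ext_one_iff (indC_exact D π hπ) (ModuleCat.of S X)
    refine e2.trans (Iff.trans ?_ e1.symm)
    have e3 := extend_iff D (P := N →₀ T) (N := LinearMap.ker π) (X := X) (LinearMap.ker π).subtype
    constructor
    · intro h f
      obtain ⟨g, hg⟩ := e3.1 (fun F => by
        obtain ⟨G, hG⟩ := h (ModuleCat.ofHom F)
        exact ⟨G.hom, congrArg ModuleCat.Hom.hom hG⟩) f.hom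
      refine ⟨ModuleCat.ofHom g, ?_⟩
      ext x
      exact LinearMap.congr_fun hg x
    · intro h f
      obtain ⟨g, hg⟩ := e3.2 (fun F => by
        obtain ⟨G, hG⟩ := h (ModuleCat.ofHom F)
        exact ⟨G.hom, congrArg ModuleCat.Hom.hom hG⟩) f.hom
      refine ⟨ModuleCat.ofHom g, ?_⟩
      ext x
      exact LinearMap.congr_fun hg x
  | succ i ih =>
    intro N X _ _ _ _ _ _
    let π : (N →₀ T) →ₗ[T] N := Finsupp.linearCombination T id
    have hπ : Function.Surjective π := Finsupp.linearCombination_id_surjective T N
    have _ : Projective (presC π).X₂ :=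
      (IsProjective.iff_projective (R := T) (N →₀ T)).1 inferInstance
    have _ : Projective (indC D π).X₂ :=
      (IsProjective.iff_projective (R := S) (IndT D (N →₀ T))).1 (ind_projective D _)
    have e1 := ext_succ_iff (presC_exact π hπ) (ModuleCat.of T X) i
    have e2 := ext_succ_iff (indC_exact D π hπ) (ModuleCat.of S X) i
    exact (e2.trans (ih (LinearMap.ker π) X)).trans e1.symm

end Pool.Agent.Q112.Rig
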