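import Pool.Agent.Q112.Rig.Fam2

/-!
# The algebra `B ⊗ K[x]/(x^(r+1))`
-/

set_option autoImplicit false

namespace Pool.Agent.Q112.Rig

open CategoryTheory Abelian MulOpposite TensorProduct Polynomial

universe u

variable (K : Type u) [Field K] (B : Type u) [Ring B] [Algebra K B] (r : ℕ)

/-- truncated polynomials with coefficients in `B` -/
abbrev TP (n : ℕ) : Type u := B ⊗[K] AdjoinRoot (X ^ n : K[X])

/-- the image of the variable -/
noncomputable def xx (n : ℕ) : TP K B n := 1 ⊗ₜ[K] AdjoinRoot.root (X ^ n : K[X])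

theorem root_pow (n : ℕ) : AdjoinRoot.root (X ^ n : K[X]) ^ n = 0 := by
  have := AdjoinRoot.mk_self (f := (X ^ n : K[X]))
  rw [map_pow, AdjoinRoot.mk_X] at this
  exact this

theorem xx_pow (n : ℕ) : xx K B n ^ n = 0 := by
  rw [xx, Algebra.TensorProduct.tmul_pow, root_pow, TensorProduct.tmul_zero]

theorem xx_comm (n : ℕ) (s : TP K B n) : xx K B n * s = s * xx K B n := by
  induction s using TensorProduct.induction_on with
  | zero => rw [mul_zero, zero_mul]
  | tmul b c =>
    rw [xx, Algebra.TensorProduct.tmul_mul_tmul, Algebra.TensorProduct.tmul_mul_tmul, one_mul,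
      mul_one, mul_comm]
  | add y z hy hz => rw [mul_add, add_mul, hy, hz]

theorem tp_gen (s : TP K B (r + 1)) : ∃ t : Fin (r + 1) → B,
    s = ∑ p : Fin (r + 1), xx K B (r + 1) ^ (p : ℕ) * (t p ⊗ₜ[K] 1) := by
  have hadd : ∀ y z : TP K B (r + 1), (∃ t : Fin (r + 1) → B,
      y = ∑ p : Fin (r + 1), xx K B (r + 1) ^ (p : ℕ) * (t p ⊗ₜ[K] 1)) → (∃ t : Fin (r + 1) → B,
      z = ∑ p : Fin (r + 1), xx K B (r + 1) ^ (p : ℕ) * (t p ⊗ₜ[K] 1)) → ∃ t : Fin (r + 1) → B,
      y + z = ∑ p : Fin (r + 1), xx K B (r + 1) ^ (p : ℕ) * (t p ⊗ₜ[K] 1) := by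
    rintro y z ⟨t, rfl⟩ ⟨t', rfl⟩
    refine ⟨t + t', ?_⟩
    rw [← Finset.sum_add_distrib]
    apply Finset.sum_congr rfl
    intro p _
    rw [Pi.add_apply, TensorProduct.add_tmul, mul_add]
  have hzero : ∃ t : Fin (r + 1) → B,
      (0 : TP K B (r + 1)) = ∑ p : Fin (r + 1), xx K B (r + 1) ^ (p : ℕ) * (t p ⊗ₜ[K] 1) :=
    ⟨0, by simp⟩
  induction s using TensorProduct.induction_on with
  | zero => exact hzero
  | add y z hy hz => exact hadd y z hy hz
  | tmul b c =>
    obtain ⟨g, rfl⟩ := AdjoinRoot.mk_surjective c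
    induction g using Polynomial.induction_on' with
    | add p q hp hq =>
      rw [map_add, TensorProduct.tmul_add]
      exact hadd _ _ hp hq
    | monomial n c =>
      have e : (b ⊗ₜ[K] (AdjoinRoot.mk (X ^ (r + 1) : K[X]) (monomial n c)) : TP K B (r + 1)) =
          xx K B (r + 1) ^ n * ((c • b) ⊗ₜ[K] 1) := by
        rw [xx, Algebra.TensorProduct.tmul_pow, Algebra.TensorProduct.tmul_mul_tmul, one_pow,
          one_mul, mul_one, TensorProduct.smul_tmul, ← C_mul_X_pow_eq_monomial, map_mul, map_pow,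
          AdjoinRoot.mk_X, AdjoinRoot.mk_C, Algebra.smul_def]
        rfl
      rw [e]
      by_cases hn : n < r + 1
      · refine ⟨Pi.single ⟨n, hn⟩ (c • b), ?_⟩
        rw [Finset.sum_eq_single ⟨n, hn⟩]
        · rw [Pi.single_eq_same]
        · intro q _ hq
          rw [Pi.single_eq_of_ne hq, TensorProduct.zero_tmul, mul_zero]
        · intro h
          exact absurd (Finset.mem_univ _) h
      · have : xx K B (r + 1) ^ n = 0 := by
          rw [show n = (n - (r + 1)) + (r + 1) by omega, pow_add, xx_pow, mul_zero]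
        rw [this, zero_mul]
        exact hzero

theorem tp_ext (N : Type u) [AddCommGroup N] [Module Bᵐᵒᵖ N] (Y : Module.End Bᵐᵒᵖ N)
    (hY : Y ^ (r + 1) = 0) :
    ∃ ρ : (TP K B (r + 1))ᵐᵒᵖ →+* AddMonoid.End N,
      (∀ (t : Bᵐᵒᵖ) v, ρ (op (t.unop ⊗ₜ[K] 1)) v = t • v) ∧
      ∀ v, ρ (op (xx K B (r + 1))) v = Y v := by
  let _ : Module K N := Module.compHom N (algebraMap K Bᵐᵒᵖ)
  have _ : IsScalarTower K Bᵐᵒᵖ N := ⟨fun c t v => by
    change (c • t) • v = algebraMap K Bᵐᵒᵖ c • t • v
    rw [Algebra.smul_def, mul_smul]⟩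
  let Y' : Module.End K N := Y.restrictScalars K
  have hY' : Y' ^ (r + 1) = 0 := by
    have e : ∀ (n : ℕ) (v : N), (Y' ^ n) v = (Y ^ n) v := by
      intro n
      induction n with
      | zero => intro v; rfl
      | succ n ih =>
        intro v
        rw [pow_succ, Module.End.mul_apply, pow_succ, Module.End.mul_apply, ih]
        rfl
    apply LinearMap.ext
    intro v
    rw [e, hY]
    rfl
  let F : B →ₐ[K] (Module.End K N)ᵐᵒᵖ := AlgHom.opComm.symm (Algebra.lsmul K K N)
  let G : AdjoinRoot (X ^ (r + 1) : K[X]) →ₐ[K] (Module.End K N)ᵐᵒᵖ :=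
    Ideal.Quotient.liftₐ (Ideal.span {(X ^ (r + 1) : K[X])}) (Polynomial.aeval (op Y')) (by
      intro g hg
      rw [Ideal.mem_span_singleton] at hg
      obtain ⟨h, rfl⟩ := hg
      rw [map_mul, map_pow, aeval_X, ← op_pow, hY', op_zero, zero_mul])
  have hFG : ∀ x y, Commute (F x) (G y) := by
    intro b c
    obtain ⟨g, rfl⟩ := AdjoinRoot.mk_surjective c
    change Commute (F b) (Polynomial.aeval (op Y') g)
    induction g using Polynomial.induction_on' with
    | add p q hp hq =>
      rw [map_add]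
      exact hp.add_right hq
    | monomial n c =>
      rw [aeval_monomial]
      refine Commute.mul_right (Algebra.commute_algebraMap_right c (F b)) (Commute.pow_right ?_ n)
      change F b * op Y' = op Y' * F b
      apply unop_injective
      apply LinearMap.ext
      intro v
      change Y (op b • v) = op b • Y v
      rw [map_smul]
  let ρ := AlgHom.opComm (Algebra.TensorProduct.lift F G hFG)
  refine ⟨(Module.toAddMonoidEnd (Module.End K N) N).comp ρ.toRingHom, ?_, ?_⟩
  · intro t v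
    change (Algebra.TensorProduct.lift F G hFG (t.unop ⊗ₜ[K] 1)).unop v = t • v
    rw [Algebra.TensorProduct.lift_tmul, map_one, mul_one]
    rfl
  · intro v
    change (Algebra.TensorProduct.lift F G hFG (1 ⊗ₜ[K] _)).unop v = Y v
    rw [Algebra.TensorProduct.lift_tmul, map_one, one_mul]
    change (Polynomial.aeval (op Y') (X : K[X])).unop v = Y v
    rw [aeval_X]
    rfl

/-- the truncated polynomial ring as an abstract truncation -/
noncomputable def tpTrunc : Trunc Bᵐᵒᵖ (TP K B (r + 1))ᵐᵒᵖ r where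
  f := RingHom.op (Algebra.TensorProduct.includeLeft : B →ₐ[K] TP K B (r + 1)).toRingHom
  x := op (xx K B (r + 1))
  comm s := by
    apply unop_injective
    exact (xx_comm K B (r + 1) s.unop).symm
  pow := by
    rw [← op_pow, xx_pow, op_zero]
  gen s := by
    obtain ⟨t, ht⟩ := tp_gen K B r s.unop
    refine ⟨fun p => op (t p), ?_⟩
    apply unop_injective
    rw [ht, Finset.unop_sum]
    rfl
  ext N _ _ Y hY := tp_ext K B r N Y hY

theorem o_tp [Module.Finite K B] (n : ℕ) (hn : 1 ≤ n) (k : ℕ) (hk : 1 ≤ k) :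
    o (TP K B n) k = o B k := by
  obtain ⟨r, rfl⟩ : ∃ r, n = r + 1 := ⟨n - 1, by omega⟩
  have h1 : Module.Finite K (AdjoinRoot (X ^ (r + 1) : K[X])) :=
    (monic_X_pow (r + 1)).finite_adjoinRoot
  have h2 : Module.Finite K (TP K B (r + 1)) := inferInstance
  exact o_eq K (tpTrunc K B r) (fun c => rfl) k hk

end Pool.Agent.Q112.Rig
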