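import Pool.Agent.Q112.Rig.ExtLem

/-!
# Rings which behave as `T[x]/(x^(r+1))`
-/

set_option autoImplicit false

namespace Pool.Agent.Q112.Rig

open CategoryTheory Abelian

universe u

/-- `S` behaves as `T[x]/(x ^ (r + 1))` -/
structure Trunc (T S : Type u) [Ring T] [Ring S] (r : ℕ) where
  f : T →+* S
  x : S
  comm : ∀ s, x * s = s * x
  pow : x ^ (r + 1) = 0
  gen : ∀ s : S, ∃ t : Fin (r + 1) → T, s = ∑ p, f (t p) * x ^ (p : ℕ)
  ext : ∀ (N : Type u) [AddCommGroup N] [Module T N] (Y : Module.End T N), Y ^ (r + 1) = 0 →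
    ∃ ρ : S →+* AddMonoid.End N, (∀ t v, ρ (f t) v = t • v) ∧ ∀ v, ρ x v = Y v

variable {T S : Type u} [Ring T] [Ring S] {r : ℕ}

/-- the two module structures are compatible -/
class Cmp (D : Trunc T S r) (X : Type u) [AddCommGroup X] [Module T X] [Module S X] : Prop where
  smul : ∀ (t : T) (v : X), D.f t • v = t • v

section cmp

variable (D : Trunc T S r) {X X' : Type u} [AddCommGroup X] [Module T X] [Module S X]
  [AddCommGroup X'] [Module T X'] [Module S X'] [Cmp D X] [Cmp D X']

theorem x_smul_comm (t : T) (v : X) : D.x • t • v = t • D.x • v := by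
  rw [← Cmp.smul (D := D) t v, ← Cmp.smul (D := D) t (D.x • v), ← mul_smul, ← mul_smul, D.comm]

theorem xpow_smul_comm (p : ℕ) (t : T) (v : X) : D.x ^ p • t • v = t • D.x ^ p • v := by
  have h : D.x ^ p * D.f t = D.f t * D.x ^ p :=
    ((show Commute D.x (D.f t) from D.comm _).pow_left p).eq
  rw [← Cmp.smul (D := D) t v, ← Cmp.smul (D := D) t (D.x ^ p • v), ← mul_smul, ← mul_smul, h]

theorem smul_eq_sum (s : S) : ∃ t : Fin (r + 1) → T, ∀ v : X,
    s • v = ∑ p, t p • D.x ^ (p : ℕ) • v := by
  obtain ⟨t, ht⟩ := D.gen s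
  refine ⟨t, fun v => ?_⟩
  rw [ht, Finset.sum_smul]
  apply Finset.sum_congr rfl
  intro p _
  rw [mul_smul, Cmp.smul]

/-- a `T`-linear map commuting with `x` is `S`-linear -/
def toLin (φ : X →ₗ[T] X') (h : ∀ v, φ (D.x • v) = D.x • φ v) : X →ₗ[S] X' where
  toFun := φ
  map_add' := φ.map_add
  map_smul' s v := by
    have hp : ∀ (p : ℕ) (v : X), φ (D.x ^ p • v) = D.x ^ p • φ v := by
      intro p
      induction p with
      | zero => intro v; simp
      | succ p ih =>
        intro v
        rw [pow_succ, mul_smul, ih, h, mul_smul]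
    obtain ⟨t, ht⟩ := D.gen s
    rw [RingHom.id_apply, ht, Finset.sum_smul, map_sum, Finset.sum_smul]
    apply Finset.sum_congr rfl
    intro p _
    rw [mul_smul, Cmp.smul, map_smul, hp, mul_smul, Cmp.smul]

theorem toLin_apply (φ : X →ₗ[T] X') (h : ∀ v, φ (D.x • v) = D.x • φ v) (v : X) :
    toLin D φ h v = φ v := rfl

/-- an `S`-linear map is `T`-linear -/
def toT (φ : X →ₗ[S] X') : X →ₗ[T] X' where
  toFun := φ
  map_add' := φ.map_add
  map_smul' t v := by
    rw [← Cmp.smul (D := D) t v, map_smul, Cmp.smul, RingHom.id_apply]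

theorem toT_apply (φ : X →ₗ[S] X') (v : X) : toT D φ v = φ v := rfl

/-- a `T`-submodule stable under `x` is an `S`-submodule -/
def toSub (U : Submodule T X) (h : ∀ v ∈ U, D.x • v ∈ U) : Submodule S X where
  carrier := U
  add_mem' := U.add_mem
  zero_mem' := U.zero_mem
  smul_mem' s v hv := by
    have hp : ∀ (p : ℕ), D.x ^ p • v ∈ U := by
      intro p
      induction p with
      | zero => simpa using hv
      | succ p ih =>
        rw [pow_succ', mul_smul]
        exact h _ ih
    obtain ⟨t, ht⟩ := smul_eq_sum D (X := X) s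
    rw [ht]
    exact U.sum_mem fun p _ => U.smul_mem _ (hp p)

end cmp

/-- the shift -/
def shift (T : Type u) [Ring T] (r : ℕ) (N : Type u) [AddCommGroup N] [Module T N] :
    Module.End T (Fin (r + 1) → N) where
  toFun v := Fin.cons 0 (fun p : Fin r => v p.castSucc)
  map_add' v w := by
    ext p
    refine Fin.cases ?_ (fun p => ?_) p
    · simp
    · simp
  map_smul' t v := by
    ext p
    refine Fin.cases ?_ (fun p => ?_) p
    · simp
    · simp

theorem shift_zero (N : Type u) [AddCommGroup N] [Module T N] (v : Fin (r + 1) → N) :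
    shift T r N v 0 = 0 := rfl

theorem shift_succ (N : Type u) [AddCommGroup N] [Module T N] (v : Fin (r + 1) → N) (p : Fin r) :
    shift T r N v p.succ = v p.castSucc := rfl

theorem shift_pow (N : Type u) [AddCommGroup N] [Module T N] (k : ℕ) (v : Fin (r + 1) → N)
    (p : Fin (r + 1)) :
    (shift T r N ^ k) v p = if k ≤ p.1 then v ⟨p.1 - k, by omega⟩ else 0 := by
  induction k generalizing p with
  | zero => simp
  | succ k ih =>
    rw [pow_succ', Module.End.mul_apply]
    refine Fin.cases ?_ (fun p => ?_) p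
    · rw [shift_zero]
      simp
    · rw [shift_succ, ih]
      simp only [Fin.val_castSucc, Fin.val_succ]
      by_cases h : k ≤ p.1
      · rw [if_pos h, if_pos (by omega)]
        congr 2
        omega
      · rw [if_neg h, if_neg (by omega)]

theorem shift_nil (N : Type u) [AddCommGroup N] [Module T N] : shift T r N ^ (r + 1) = 0 := by
  apply LinearMap.ext
  intro v
  funext p
  rw [shift_pow, if_neg (by omega)]
  rfl

/-- the induced module -/
def IndT (_ : Trunc T S r) (N : Type u) : Type u := Fin (r + 1) → N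

section ind

variable (D : Trunc T S r) (N : Type u) [AddCommGroup N] [Module T N]

instance : AddCommGroup (IndT D N) := inferInstanceAs (AddCommGroup (Fin (r + 1) → N))
instance : Module T (IndT D N) := inferInstanceAs (Module T (Fin (r + 1) → N))
noncomputable instance : Module S (IndT D N) :=
  Module.compHom (Fin (r + 1) → N) (D.ext (Fin (r + 1) → N) (shift T r N) (shift_nil N)).choose

instance : Cmp D (IndT D N) :=
  ⟨(D.ext (Fin (r + 1) → N) (shift T r N) (shift_nil N)).choose_spec.1⟩

theorem x_smul_ind (v : IndT D N) : D.x • v = shift T r N v :=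
  (D.ext (Fin (r + 1) → N) (shift T r N) (shift_nil N)).choose_spec.2 v

theorem xpow_smul_ind (k : ℕ) (v : IndT D N) : D.x ^ k • v = (shift T r N ^ k) v := by
  induction k with
  | zero =>
    rw [pow_zero, one_smul]
    rfl
  | succ k ih =>
    rw [pow_succ', mul_smul, ih]
    exact (x_smul_ind D N ((shift T r N ^ k) v)).trans
      (LinearMap.congr_fun (pow_succ' (shift T r N) k).symm (v : Fin (r + 1) → N))

/-- the embedding in degree zero -/
def iota : N →ₗ[T] IndT D N := LinearMap.single T (fun _ : Fin (r + 1) => N) 0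

/-- the projection to degree zero -/
def pr : IndT D N →ₗ[T] N := LinearMap.proj (0 : Fin (r + 1))

theorem pr_apply (v : IndT D N) : pr D N v = v 0 := rfl

theorem pr_iota (n : N) : pr D N (iota D N n) = n := by
  change (Pi.single 0 n : Fin (r + 1) → N) 0 = n
  simp

theorem pr_x (v : IndT D N) : pr D N (D.x • v) = 0 := by
  rw [x_smul_ind]
  rfl

theorem pr_smul (s : S) : ∃ t : T, ∀ v : IndT D N, pr D N (s • v) = t • pr D N v := by
  obtain ⟨t, ht⟩ := smul_eq_sum D (X := IndT D N) s
  refine ⟨t 0, fun v => ?_⟩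
  rw [ht, Fin.sum_univ_succ, map_add, map_sum, Finset.sum_eq_zero, add_zero]
  · simp
  · intro p _
    rw [Fin.val_succ, map_smul, pow_succ', mul_smul, pr_x, smul_zero]

theorem mem_x_of_pr (v : IndT D N) (h : pr D N v = 0) : ∃ w : IndT D N, v = D.x • w := by
  let w : Fin (r + 1) → N := fun p => if h : p.1 + 1 < r + 1 then
    (v : Fin (r + 1) → N) ⟨p.1 + 1, h⟩ else 0
  refine ⟨w, ?_⟩
  refine Eq.trans ?_ (x_smul_ind D N w).symm
  funext p
  refine Fin.cases ?_ (fun p => ?_) p
  · rw [shift_zero]
    exact h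
  · rw [shift_succ]
    change _ = if h : p.castSucc.1 + 1 < r + 1 then
      (v : Fin (r + 1) → N) ⟨p.castSucc.1 + 1, h⟩ else 0
    rw [dif_pos (by simp)]
    rfl

theorem xpow_iota (k : Fin (r + 1)) (n : N) :
    D.x ^ (k : ℕ) • iota D N n = (Pi.single k n : Fin (r + 1) → N) := by
  refine (xpow_smul_ind D N k.1 (iota D N n)).trans ?_
  funext p
  refine (shift_pow N k.1 (Pi.single 0 n : Fin (r + 1) → N) p).trans ?_
  by_cases h : k.1 ≤ p.1
  · rw [if_pos h]
    by_cases h2 : p = k
    · subst h2
      have : (⟨p.1 - p.1, by omega⟩ : Fin (r + 1)) = 0 := by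
        ext; simp
      rw [this]
      simp
    · have h3 : p.1 ≠ k.1 := fun e => h2 (Fin.ext e)
      have : (⟨p.1 - k.1, by omega⟩ : Fin (r + 1)) ≠ 0 := by
        intro e
        have := congrArg Fin.val e
        simp only [Fin.val_zero] at this
        omega
      rw [Pi.single_eq_of_ne this, Pi.single_eq_of_ne h2]
  · rw [if_neg h, Pi.single_eq_of_ne]
    rintro rfl
    exact h le_rfl

theorem ind_eq_sum (v : IndT D N) : v = ∑ p : Fin (r + 1), D.x ^ (p : ℕ) • iota D N (v p) := by
  simp only [xpow_iota]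
  exact (Finset.univ_sum_single (M := fun _ : Fin (r + 1) => N) v).symm

variable {N}
variable {X : Type u} [AddCommGroup X] [Module T X] [Module S X] [Cmp D X]

/-- the universal property, on functions -/
def indPre (φ : N →ₗ[T] X) : (Fin (r + 1) → N) →ₗ[T] X where
  toFun v := ∑ p : Fin (r + 1), D.x ^ (p : ℕ) • φ (v p)
  map_add' v w := by
    rw [← Finset.sum_add_distrib]
    apply Finset.sum_congr rfl
    intro p _
    rw [← smul_add, ← map_add]
    rfl
  map_smul' t v := by
    rw [RingHom.id_apply, Finset.smul_sum]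
    apply Finset.sum_congr rfl
    intro p _
    rw [← xpow_smul_comm, ← φ.map_smul]
    rfl

theorem indPre_shift (φ : N →ₗ[T] X) (v : Fin (r + 1) → N) :
    indPre D φ (shift T r N v) = D.x • indPre D φ v := by
  change ∑ p : Fin (r + 1), D.x ^ (p : ℕ) • φ (shift T r N v p) =
    D.x • ∑ p : Fin (r + 1), D.x ^ (p : ℕ) • φ (v p)
  have e : D.x * D.x ^ ((Fin.last r : Fin (r + 1)) : ℕ) = 0 := by
    rw [← pow_succ', Fin.val_last, D.pow]
  conv_lhs => rw [Fin.sum_univ_succ, shift_zero, map_zero, smul_zero, zero_add]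
  conv_rhs => rw [Fin.sum_univ_castSucc, smul_add, ← mul_smul, e, zero_smul, add_zero,
    Finset.smul_sum]
  apply Finset.sum_congr rfl
  intro p _
  rw [shift_succ, Fin.val_succ, Fin.val_castSucc, pow_succ', mul_smul]

/-- the universal property -/
noncomputable def indHom (φ : N →ₗ[T] X) : IndT D N →ₗ[S] X :=
  toLin D (X := IndT D N) (X' := X) (indPre D φ) (fun v => by
    rw [x_smul_ind]
    exact indPre_shift D φ v)

theorem indHom_apply (φ : N →ₗ[T] X) (v : IndT D N) :
    indHom D φ v = ∑ p : Fin (r + 1), D.x ^ (p : ℕ) • φ (v p) := rfl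

theorem indHom_iota (φ : N →ₗ[T] X) (n : N) : indHom D φ (iota D N n) = φ n := by
  rw [indHom_apply, Fin.sum_univ_succ, Finset.sum_eq_zero, add_zero]
  · change D.x ^ 0 • φ ((Pi.single 0 n : Fin (r + 1) → N) 0) = φ n
    simp
  · intro p _
    change D.x ^ _ • φ ((Pi.single 0 n : Fin (r + 1) → N) p.succ) = 0
    rw [Pi.single_eq_of_ne (Fin.succ_ne_zero p), map_zero, smul_zero]

theorem ind_hom_ext {X : Type u} [AddCommGroup X] [Module S X] {F G : IndT D N →ₗ[S] X}
    (h : ∀ n, F (iota D N n) = G (iota D N n)) : F = G := by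
  apply LinearMap.ext
  intro v
  rw [ind_eq_sum D N v, map_sum, map_sum]
  apply Finset.sum_congr rfl
  intro p _
  rw [map_smul, map_smul, h]

/-- functoriality -/
noncomputable def indMap {N' : Type u} [AddCommGroup N'] [Module T N'] (φ : N →ₗ[T] N') :
    IndT D N →ₗ[S] IndT D N' :=
  indHom D ((iota D N').comp φ)

theorem indMap_iota {N' : Type u} [AddCommGroup N'] [Module T N'] (φ : N →ₗ[T] N') (n : N) :
    indMap D φ (iota D N n) = iota D N' (φ n) := indHom_iota D _ n

theorem indMap_apply {N' : Type u} [AddCommGroup N'] [Module T N'] (φ : N →ₗ[T] N') (v : IndT D N)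
    (p : Fin (r + 1)) : indMap D φ v p = φ (v p) := by
  have e : indMap D φ v = ∑ p : Fin (r + 1), D.x ^ (p : ℕ) • iota D N' (φ (v p)) :=
    indHom_apply D _ v
  have e2 : (fun q => φ (v q) : IndT D N') = ∑ p : Fin (r + 1), D.x ^ (p : ℕ) •
    iota D N' (φ (v p)) := ind_eq_sum D N' (fun q => φ (v q) : IndT D N')
  rw [e, ← e2]

variable (N)

/-- induced modules of projectives are projective -/
theorem ind_projective [Module.Projective T N] : Module.Projective S (IndT D N) := by
  apply Module.Projective.of_lifting_property''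
  intro f hf
  let _ : Module T (IndT D N →₀ S) := Module.compHom _ D.f
  have _ : Cmp D (IndT D N →₀ S) := ⟨fun _ _ => rfl⟩
  obtain ⟨h, hh⟩ := Module.projective_lifting_property (toT D f) (iota D N) hf
  refine ⟨indHom D h, ?_⟩
  apply ind_hom_ext
  intro n
  rw [LinearMap.comp_apply, indHom_iota]
  exact LinearMap.congr_fun hh n

end ind

end Pool.Agent.Q112.Rig
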